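import Pool.Agent.Lib_MP_d5b6a6.Few

/-!
# MP_d5b6a6_nt: upper bound for the longest run of integers with more than `log log n` prime factors
-/

set_option autoImplicit false

namespace Pool.Agent.Results.MP_d5b6a6_nt.UpperRun

open Finset

/-- `a, a + 1, ..., a + l - 1` is a block in `[x, 2x]` all of whose elements `n` have more than
`κ * log log n` distinct prime factors (the empty block `l = 0` counts if `x ≤ a ≤ 2x + 1`). -/
def IsRun (κ : ℝ) (x a l : ℕ) : Prop :=
  x ≤ a ∧ a + l ≤ 2 * x + 1 ∧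
    ∀ n ∈ Finset.Ico a (a + l), κ * Real.log (Real.log n) < (n.primeFactors.card : ℝ)

/-- the length of the longest run; `runLen 1 x` is the quantity `L(x)` of the problem -/
noncomputable def runLen (κ : ℝ) (x : ℕ) : ℕ := sSup {l | ∃ a, IsRun κ x a l}

theorem isRun_bdd (κ : ℝ) (x : ℕ) : ∀ l ∈ {l | ∃ a, IsRun κ x a l}, l ≤ x + 1 := by
  rintro l ⟨a, h1, h2, -⟩
  omega

theorem isRun_zero (κ : ℝ) (x : ℕ) : 0 ∈ {l | ∃ a, IsRun κ x a l} :=
  ⟨x, le_rfl, by omega, fun n hn => by simp at hn⟩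

theorem runLen_greatest (κ : ℝ) (x : ℕ) : IsGreatest {l | ∃ a, IsRun κ x a l} (runLen κ x) := by
  have hb : BddAbove {l | ∃ a, IsRun κ x a l} := ⟨x + 1, isRun_bdd κ x⟩
  exact ⟨Nat.sSup_mem ⟨0, isRun_zero κ x⟩ hb, fun l hl => le_csSup hb hl⟩

/-- every long block of `[x, 2x]` contains an integer with few prime factors -/
theorem block_few (κ ε : ℝ) (hκ : 0 < κ) (hε : 0 < ε) : ∃ x0 : ℕ, ∀ x : ℕ, x0 ≤ x → ∀ a l : ℕ,
    Real.exp ((1 + ε) * Real.log x / (κ * Real.log (Real.log x))) < l → ¬ IsRun κ x a l := by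
  obtain ⟨δ, hδ⟩ : ∃ δ : ℝ, δ = min (1 / 2) (ε / (4 * (1 + ε))) := ⟨_, rfl⟩
  have hδ0 : 0 < δ := by rw [hδ]; exact lt_min (by norm_num) (by positivity)
  have hδ1 : δ ≤ 1 / 2 := by rw [hδ]; exact min_le_left _ _
  have hδ2 : δ * (4 * (1 + ε)) ≤ ε := by
    have h1 : δ ≤ ε / (4 * (1 + ε)) := by rw [hδ]; exact min_le_right _ _
    rwa [le_div_iff₀ (by positivity)] at h1
  obtain ⟨C0, H0, hfew⟩ := Pool.Agent.LongRun.few_small δ hδ0 hδ1
  -- eventual inequalities in the variable `u = log x`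
  have hev : ∀ᶠ u : ℝ in Filter.atTop, 1 < u ∧ 0 < Real.log u ∧ C0 ≤ δ * (κ * Real.log u) ∧
      Real.log 2 + κ * Real.log u * Real.log 2 ≤ ε / 2 * u ∧
      Real.log (max H0 2 + 1) ≤ (1 + ε) * u / (κ * Real.log u) := by
    have hll : Filter.Tendsto Real.log Filter.atTop Filter.atTop := Real.tendsto_log_atTop
    have t1 : Filter.Tendsto (fun u : ℝ => δ * (κ * Real.log u)) Filter.atTop Filter.atTop :=
      (hll.const_mul_atTop hκ).const_mul_atTop hδ0
    have t2 : Filter.Tendsto (fun u : ℝ => Real.log u / u ^ (1 : ℝ)) Filter.atTop (nhds 0) :=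
      (isLittleO_log_rpow_atTop zero_lt_one).tendsto_div_nhds_zero
    have t3 : Filter.Tendsto (fun u : ℝ => κ * Real.log 2 * (Real.log u / u ^ (1 : ℝ))) Filter.atTop
        (nhds 0) := by
      have := t2.const_mul (κ * Real.log 2)
      rwa [mul_zero] at this
    have t4 : Filter.Tendsto (fun u : ℝ => κ * Real.log (max H0 2 + 1) * (Real.log u / u ^ (1 : ℝ)))
        Filter.atTop (nhds 0) := by
      have := t2.const_mul (κ * Real.log (max H0 2 + 1))
      rwa [mul_zero] at this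
    filter_upwards [t1.eventually_ge_atTop C0, Filter.eventually_gt_atTop 1,
      hll.eventually_gt_atTop 0, t3.eventually_le_const (show (0 : ℝ) < ε / 4 by positivity),
      t4.eventually_le_const (show (0 : ℝ) < 1 by norm_num),
      Filter.eventually_ge_atTop (4 * Real.log 2 / ε)] with u h1 h2 h3 h4 h5 h6
    have hu0 : 0 < u := by linarith
    rw [Real.rpow_one] at h4 h5
    refine ⟨h2, h3, h1, ?_, ?_⟩
    · have h7 : κ * Real.log 2 * Real.log u ≤ ε / 4 * u := by
        have := mul_le_mul_of_nonneg_right h4 hu0.le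
        rwa [mul_assoc (κ * Real.log 2), div_mul_cancel₀ _ hu0.ne'] at this
      rw [div_le_iff₀ hε] at h6
      nlinarith
    · rw [le_div_iff₀ (by positivity)]
      have h8 : κ * Real.log (max H0 2 + 1) * Real.log u ≤ 1 * u := by
        have := mul_le_mul_of_nonneg_right h5 hu0.le
        rwa [mul_assoc (κ * Real.log (max H0 2 + 1)), div_mul_cancel₀ _ hu0.ne'] at this
      nlinarith
  have hev2 : ∀ᶠ x : ℕ in Filter.atTop, 1 < Real.log x ∧ 0 < Real.log (Real.log x) ∧
      C0 ≤ δ * (κ * Real.log (Real.log x)) ∧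
      Real.log 2 + κ * Real.log (Real.log x) * Real.log 2 ≤ ε / 2 * Real.log x ∧
      Real.log (max H0 2 + 1) ≤ (1 + ε) * Real.log x / (κ * Real.log (Real.log x)) :=
    (Real.tendsto_log_atTop.comp tendsto_natCast_atTop_atTop).eventually hev
  obtain ⟨x0, hx0⟩ := Filter.eventually_atTop.mp hev2
  refine ⟨max x0 2, ?_⟩
  intro x hx a l hl hrun
  obtain ⟨hu, hlu, hCδ, hE1, hE2⟩ := hx0 x ((le_max_left _ _).trans hx)
  have hx2 : 2 ≤ x := (le_max_right _ _).trans hx
  obtain ⟨lam, hlam⟩ : ∃ lam : ℝ, lam = Real.log (Real.log x) := ⟨_, rfl⟩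
  obtain ⟨u, hu'⟩ : ∃ u : ℝ, u = Real.log x := ⟨_, rfl⟩
  rw [← hlam] at hlu hCδ hE1 hE2 hl
  rw [← hu'] at hu hE1 hE2 hl
  obtain ⟨H, hH⟩ : ∃ H : ℝ, H = Real.exp ((1 + ε) * u / (κ * lam)) := ⟨_, rfl⟩
  rw [← hH] at hl
  have hH2 : max H0 2 + 1 ≤ H := by
    rw [hH, ← Real.log_le_iff_le_exp (by positivity)]
    exact hE2
  obtain ⟨h, hh⟩ : ∃ h : ℕ, h = ⌊H⌋₊ := ⟨_, rfl⟩
  have hH0' : (0 : ℝ) < H := by rw [hH]; positivity
  have hhle : (h : ℝ) ≤ H := by rw [hh]; exact Nat.floor_le hH0'.le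
  have hhge : H - 1 ≤ h := by
    have := Nat.lt_floor_add_one H
    rw [← hh] at this
    linarith
  have hh2 : (2 : ℝ) ≤ h := by linarith [le_max_right H0 2]
  have hhH0 : H0 ≤ h := by linarith [le_max_left H0 2]
  have hhl : h ≤ l := by
    have : (h : ℝ) < l := lt_of_le_of_lt hhle hl
    exact_mod_cast this.le
  obtain ⟨h1, h2, h3⟩ := hrun
  obtain ⟨n, hn, hn2⟩ := hfew h hhH0 a (by omega)
  rw [Finset.mem_Ico] at hn
  have hnl : n ∈ Finset.Ico a (a + l) := Finset.mem_Ico.2 ⟨hn.1, by omega⟩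
  have h4 := h3 n hnl
  have hxn : x ≤ n := h1.trans hn.1
  have hn2x : n ≤ 2 * x := by omega
  have hn0 : n ≠ 0 := by omega
  -- lower bound for `log log n`
  have hlln : lam ≤ Real.log (Real.log n) := by
    rw [hlam]
    apply Real.log_le_log (by rw [← hu']; linarith)
    exact Real.log_le_log (by exact_mod_cast (by omega : 0 < x)) (by exact_mod_cast hxn)
  -- the large prime factors
  have hh0 : (0 : ℝ) < h := by linarith
  have hlogh : 0 < Real.log h := Real.log_pos (by linarith)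
  have hw : 1 < (h : ℝ) ^ (1 - δ) := Real.one_lt_rpow (by linarith) (by linarith)
  have h5 := Pool.Agent.LongRun.large_factors hn0 hw
  rw [Real.log_rpow hh0] at h5
  have hlogn : Real.log n ≤ Real.log 2 + u := by
    rw [hu', ← Real.log_mul (by norm_num) (by exact_mod_cast (by omega : x ≠ 0))]
    apply Real.log_le_log (by exact_mod_cast Nat.pos_of_ne_zero hn0)
    exact_mod_cast hn2x
  have hloghge : (1 + ε) * u / (κ * lam) - Real.log 2 ≤ Real.log h := by
    have h6 : H / 2 ≤ h := by linarith [le_max_right H0 2]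
    have h7 : Real.log (H / 2) ≤ Real.log h := Real.log_le_log (by positivity) h6
    rw [Real.log_div hH0'.ne' (by norm_num), hH, Real.log_exp] at h7
    exact h7
  set K : ℝ := ((n.primeFactors.filter (fun p : ℕ => ¬ ((p : ℝ) ≤ (h : ℝ) ^ (1 - δ)))).card : ℝ)
    with hK
  have hKle : K ≤ (1 - δ) * (κ * lam) := by
    by_contra hcon
    rw [not_le] at hcon
    have h8 : (1 - δ) * (κ * lam) * ((1 - δ) * Real.log h) < K * ((1 - δ) * Real.log h) :=
      mul_lt_mul_of_pos_right hcon (mul_pos (by linarith) hlogh)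
    have h9 : (1 - δ) * (κ * lam) * ((1 - δ) * Real.log h) < Real.log 2 + u :=
      lt_of_lt_of_le (lt_of_lt_of_le h8 h5) hlogn
    have h10 : κ * lam * ((1 + ε) * u / (κ * lam) - Real.log 2) ≤ κ * lam * Real.log h :=
      mul_le_mul_of_nonneg_left hloghge (by positivity)
    have h11 : κ * lam * ((1 + ε) * u / (κ * lam) - Real.log 2) =
        (1 + ε) * u - κ * lam * Real.log 2 := by
      have : κ * lam ≠ 0 := (mul_pos hκ hlu).ne'
      field_simp
    rw [h11] at h10
    have h12 : (1 - δ) * (1 - δ) * ((1 + ε) * u - κ * lam * Real.log 2) ≤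
        (1 - δ) * (1 - δ) * (κ * lam * Real.log h) :=
      mul_le_mul_of_nonneg_left h10 (mul_nonneg (by linarith) (by linarith))
    have h13 : (1 + ε / 2) * u ≤ (1 - δ) * (1 - δ) * ((1 + ε) * u) := by
      have h14 : 1 + ε / 2 ≤ (1 - δ) * (1 - δ) * (1 + ε) := by nlinarith [sq_nonneg δ]
      nlinarith
    have hl2 : 0 < Real.log 2 := Real.log_pos (by norm_num)
    have h15 : (1 - δ) * (1 - δ) * (κ * lam * Real.log 2) ≤ κ * lam * Real.log 2 := by
      have h16 : (1 - δ) * (1 - δ) ≤ 1 := by nlinarith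
      have h17 : 0 ≤ κ * lam * Real.log 2 := by positivity
      nlinarith
    nlinarith
  have hcard : (n.primeFactors.card : ℝ) =
      ((n.primeFactors.filter (fun p : ℕ => (p : ℝ) ≤ (h : ℝ) ^ (1 - δ))).card : ℝ) + K := by
    rw [hK]
    exact_mod_cast (Finset.card_filter_add_card_filter_not
      (fun p : ℕ => (p : ℝ) ≤ (h : ℝ) ^ (1 - δ))).symm
  have h18 : κ * lam ≤ κ * Real.log (Real.log n) := mul_le_mul_of_nonneg_left hlln hκ.le
  have h19 : C0 ≤ δ * (κ * lam) := hCδ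
  rw [hcard] at h4
  linarith

/-- For all `κ, ε > 0` and all large `x`, the longest run of consecutive integers `n` in `[x, 2x]`
with more than `κ log log n` distinct prime factors has length at most
`exp ((1 + ε) log x / (κ log log x))`. -/
theorem result (κ ε : ℝ) (hκ : 0 < κ) (hε : 0 < ε) : ∃ x0 : ℕ, ∀ x : ℕ, x0 ≤ x →
    IsGreatest {l | ∃ a, IsRun κ x a l} (runLen κ x) ∧
    (runLen κ x : ℝ) ≤ Real.exp ((1 + ε) * Real.log x / (κ * Real.log (Real.log x))) := by
  obtain ⟨x0, h⟩ := block_few κ ε hκ hε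
  refine ⟨x0, fun x hx => ⟨runLen_greatest κ x, ?_⟩⟩
  by_contra hcon
  rw [not_le] at hcon
  obtain ⟨a, ha⟩ := (runLen_greatest κ x).1
  exact h x hx a _ hcon ha

end Pool.Agent.Results.MP_d5b6a6_nt.UpperRun
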